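import Pool.Agent.TH522.UG.Mixed
import Pool.Agent.TH843.LR.Form

/-!
Local reductions from 3-SAT to unique games: the lower bound for their size.
-/

set_option autoImplicit false

namespace Pool.Agent.V11231.ULR

open Finset Pool.Agent.W888.GX Pool.Agent.TH700.UG
open Pool.Agent.TH522.UG (Mixed Dep)

section

variable {n D d k : ℕ} {L : ((Fin n → ZMod 2) → ℝ) →ₗ[ℝ] ℝ} {V A : Type} [Fintype V]

/-- composition of a functional with a local encoding, as a solution of the mixed hierarchy -/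
theorem mixed_comp (hL : IsPseudoExpectation D L) (enc : (Fin n → ZMod 2) → V → A)
    (henc : ∀ v, ∃ S : Finset (Fin n), S.card ≤ d ∧ Reads (fun z => enc z v) S)
    (hD : (k + 2) * d ≤ D) :
    Mixed k (L.comp (LinearMap.funLeft ℝ ℝ enc)) := by
  classical
  choose S hS hR using henc
  have hread : ∀ (W : Finset V) (f : (V → A) → ℝ), Dep W f →
      Reads (fun z => f (enc z)) (W.biUnion S) := by
    intro W f hf x y hxy
    refine hf _ _ (fun v hv => ?_)
    exact hR v x y fun i hi => hxy i (mem_biUnion.2 ⟨v, hv, hi⟩)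
  have hcard : ∀ W : Finset V, (W.biUnion S).card ≤ W.card * d := fun W =>
    card_biUnion_le.trans ((Finset.sum_le_card_nsmul W _ d fun v _ => hS v).trans
      (by rw [smul_eq_mul]))
  refine ⟨?_, fun W hW f hf hf0 => ?_, fun W hW g hg hg0 c => ?_⟩
  · rw [LinearMap.comp_apply]
    exact hL.1
  · have h1 := hL.2 (fun z => Real.sqrt (f (enc z)))
      (mem_low (S := W.biUnion S) ((hcard W).trans ((Nat.mul_le_mul_right d hW).trans hD))
      (hread W (fun x => Real.sqrt (f x)) fun x y h => congrArg Real.sqrt (hf x y h)))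
    have h2 : (fun z => (fun z => Real.sqrt (f (enc z))) z ^ 2) = fun z => f (enc z) := by
      funext z
      exact Real.sq_sqrt (hf0 _)
    rw [h2] at h1
    exact h1
  · have hmem : (fun z => ∑ w, Real.sqrt (g (enc z)) * c w (enc z w)) ∈
        LowDegree (Fin n) (ZMod 2) D := by
      have h0 : (fun z => ∑ w, Real.sqrt (g (enc z)) * c w (enc z w)) =
          ∑ w, fun z => Real.sqrt (g (enc z)) * c w (enc z w) := by
        funext z
        rw [Finset.sum_apply]
      rw [h0]
      refine Submodule.sum_mem _ fun w _ => ?_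
      refine mem_low (S := (insert w W).biUnion S) ?_ ?_
      · refine (hcard _).trans (le_trans (Nat.mul_le_mul_right d ?_) hD)
        have := card_insert_le w W
        omega
      · refine hread (insert w W) (fun x => Real.sqrt (g x) * c w (x w)) ?_
        intro x y h
        show Real.sqrt (g x) * c w (x w) = Real.sqrt (g y) * c w (y w)
        rw [hg x y (fun i hi => h i (mem_insert_of_mem hi)), h w (mem_insert_self _ _)]
    have h1 := hL.2 _ hmem
    have h2 : (fun z => (fun z => ∑ w, Real.sqrt (g (enc z)) * c w (enc z w)) z ^ 2) =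
        fun z => g (enc z) * (∑ w, c w (enc z w)) ^ 2 := by
      funext z
      simp only []
      rw [← mul_sum, mul_pow, Real.sq_sqrt (hg0 _)]
    rw [h2] at h1
    exact h1

end

theorem main (η : ℝ) (hη : 0 < η) :
    ∃ M : ℕ, 1 ≤ M ∧ ∃ c : ℝ, 0 < c ∧ ∃ n₀ : ℕ, ∀ n : ℕ, n₀ ≤ n →
      ∃ (I : Type) (_ : Fintype I) (F : I → Clause 3 n),
        n ≤ Fintype.card I ∧ Fintype.card I ≤ M * n ∧
        (∀ z, (1 / 8 - η) * (Fintype.card I : ℝ) ≤ (falsified F z : ℝ)) ∧
        ∀ (D : ℕ) (r γ ε : ℝ) (V A E : Type) [Fintype V] [Fintype A] [DecidableEq A] [Fintype E]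
          (s t : E → V) (π : E → Equiv.Perm A), 1 ≤ D → 0 < r → r ≤ 1 → 0 < γ → γ < 1 → 0 < ε →
          2 ^ 30 * (ε * Real.log (2 / r)) ≤ r * γ ^ 2 →
          Represents F D ε s t π →
          (∀ x : V → A, ((univ.filter fun e => π e (x (s e)) = x (t e)).card : ℝ) <
            (1 - γ) * Fintype.card E) →
          c * n < D * (Real.log (2 / γ) * (Fintype.card V : ℝ) ^ r) := by
  obtain ⟨M, hM, c0, hc0, n0, hn0⟩ := Pool.Agent.TH843.LR.exists_formula_card η hη
  refine ⟨M, hM, c0 / 2 ^ 31, by positivity, n0, fun n hn => ?_⟩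
  obtain ⟨I, hI, F, D0, L, hcard0, hcard, hfar, hD0, hL, hF⟩ := hn0 n hn
  refine ⟨I, hI, F, hcard0, hcard, hfar, ?_⟩
  intro D r γ ε V A E _ _ _ _ s t π hD hr hr1 hγ hγ1 hε hεγ hR hno
  classical
  by_contra hcon
  push Not at hcon
  rcases isEmpty_or_nonempty V with hV | hV
  · have hE : IsEmpty E := ⟨fun e => hV.false (s e)⟩
    have h1 := hno fun v => (hV.false v).elim
    simp at h1
  have hVc : (1 : ℝ) ≤ Fintype.card V := by
    exact_mod_cast Fintype.card_pos (α := V)
  have hVr : (1 : ℝ) ≤ (Fintype.card V : ℝ) ^ r := Real.one_le_rpow hVc hr.le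
  have hlog : Real.log 2 ≤ Real.log (2 / γ) := by
    refine Real.log_le_log (by norm_num) ?_
    rw [le_div_iff₀ hγ]
    linarith
  have hl2 := Real.log_two_gt_d9
  obtain ⟨X, hX⟩ : ∃ X : ℝ, X = Real.log (2 / γ) * (Fintype.card V : ℝ) ^ r := ⟨_, rfl⟩
  have hX1 : 1 / 2 ≤ X := by
    rw [hX]
    nlinarith
  rw [← hX] at hcon
  have hDr : (1 : ℝ) ≤ D := by exact_mod_cast hD
  obtain ⟨K, hK⟩ : ∃ K : ℕ, K = ⌈(1073741824 : ℝ) * X⌉₊ := ⟨_, rfl⟩
  have hK1 : 1073741824 * X ≤ K := by rw [hK]; exact Nat.le_ceil _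
  have hK2 : (K : ℝ) < 1073741824 * X + 1 := by
    rw [hK]; exact Nat.ceil_lt_add_one (by linarith)
  have hKD : (K + 2) * D ≤ D0 := by
    have h2 : (((K + 2) * D : ℕ) : ℝ) ≤ D0 := by
      push_cast
      have h3 : (K : ℝ) + 2 ≤ 2 ^ 31 * X := by norm_num; linarith
      calc ((K : ℝ) + 2) * D ≤ 2 ^ 31 * X * D :=
            mul_le_mul_of_nonneg_right h3 (by linarith)
        _ = 2 ^ 31 * (D * X) := by ring
        _ ≤ 2 ^ 31 * (c0 / 2 ^ 31 * n) := mul_le_mul_of_nonneg_left hcon (by norm_num)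
        _ = c0 * n := by ring
        _ ≤ D0 := hD0
    exact_mod_cast h2
  obtain ⟨enc, P, _, T, g, henc, hg, hval⟩ := hR
  have hmix := mixed_comp (k := K) hL enc henc hKD
  have hgL : ∀ p, 0 ≤ L (g p) := by
    intro p
    refine pe_local hL F hF (T p) ?_ (g p) (hg p).2.1 (hg p).2.2
    calc (T p).card ≤ D := (hg p).1
      _ ≤ (K + 2) * D := Nat.le_mul_of_pos_left _ (by omega)
      _ ≤ D0 := hKD
  have hsum : (1 - ε) * (Fintype.card E : ℝ) ≤ ∑ e, (L.comp (LinearMap.funLeft ℝ ℝ enc))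
      (fun x => if π e (x (s e)) = x (t e) then (1 : ℝ) else 0) := by
    rw [← map_sum, LinearMap.comp_apply]
    have h1 : (LinearMap.funLeft ℝ ℝ enc) (∑ e, fun x : V → A =>
        if π e (x (s e)) = x (t e) then (1 : ℝ) else 0) =
        ((1 - ε) * (Fintype.card E : ℝ)) • (fun _ => (1 : ℝ)) + ∑ p, g p := by
      funext z
      rw [LinearMap.funLeft_apply, Finset.sum_apply, Pi.add_apply, Pi.smul_apply,
        Finset.sum_apply, smul_eq_mul, mul_one]
      have h2 := hval z
      have h3 : (∑ e, if π e (enc z (s e)) = enc z (t e) then (1 : ℝ) else 0) +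
          (violated s t π (enc z) : ℝ) = Fintype.card E := by
        rw [Finset.sum_boole]
        unfold violated
        have h4 := Finset.card_filter_add_card_filter_not (s := (univ : Finset E))
          (fun e => π e (enc z (s e)) = enc z (t e))
        rw [card_univ] at h4
        exact_mod_cast h4
      linarith
    rw [h1, map_add, map_smul, map_sum, hL.1, smul_eq_mul, mul_one]
    have h5 : 0 ≤ ∑ p, L (g p) := Finset.sum_nonneg fun p _ => hgL p
    linarith
  obtain ⟨x, hx⟩ := Pool.Agent.TH522.UG.core (Pool.Agent.TH522.UG.hier_mixed V A) s t π r γ ε hr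
    hr1 hγ hγ1 hε (by norm_num at hεγ ⊢; exact hεγ) K (by rw [← hX]; exact hK1) _
    hmix hsum
  have := hno x
  linarith

end Pool.Agent.V11231.ULR
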